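import Pool.Agent.Run7.h638.WR.Iface

/-! Piece `QA` of the project WR (MP_5885b3_lc). -/

set_option autoImplicit false

universe u

namespace Pool.Agent.Run7.h547.WR

open Pool.Agent.Run7.h638.WR

theorem t_QA : QA.{u} := by
  intro Q X _ h R
  have hss : ∀ S : Set (At Q), impS Q S S = Set.univ := by
    intro S
    ext c
    simp [impS]
  have top : ∀ x y, h Set.univ x y := by
    intro x y
    rw [← hss ∅, R.imp]
    intro x' y' _ _ hh
    exact hh
  have bot : ∀ x y, ¬ h ∅ x y := by
    intro x y hxy
    have e1 : cmpS Q Set.univ (cmpS Q ∅ Set.univ) = ∅ := by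
      ext c
      simp [cmpS]
    have e2 : ∀ a b, h ∅ a b := by
      intro a b
      rw [← e1, R.comp, R.comp]
      exact ⟨x, top a x, y, hxy, top y b⟩
    have e3 : h ∅ = h Set.univ := by
      funext a b
      exact propext ⟨fun _ => top a b, fun _ => e2 a b⟩
    have e4 : (∅ : Set (At Q)) = Set.univ := R.inj e3
    have e5 : IsAtom Q ((0, 0), lb 0) := by
      refine ⟨by norm_num, by norm_num, ?_⟩
      simp [blk, kind]
    have e6 : (⟨((0, 0), lb 0), e5⟩ : At Q) ∈ (∅ : Set (At Q)) := by
      rw [e4]
      exact Set.mem_univ _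
    exact e6
  have mono : ∀ S T, S ⊆ T → ∀ x y, h S x y → h T x y := by
    intro S T hST x y hS
    have e1 : impS Q S T = Set.univ := by
      ext c
      by_cases hc : c ∈ S
      · simp [impS, hc, hST hc]
      · simp [impS, hc]
    have e2 : relImp (h S) (h T) x y := by
      rw [← R.imp, e1]
      exact top x y
    exact e2 x y le_rfl le_rfl hS
  refine ⟨R.weak, ?_, top, bot, mono, ?_, ?_, ?_⟩
  · intro S T x z
    rw [R.comp]
    exact Iff.rfl
  · intro S T x y hS hT
    have e1 : T ⊆ impS Q S (S ∩ T) := by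
      intro c hc
      by_cases hcS : c ∈ S
      · exact Or.inr ⟨hcS, hc⟩
      · exact Or.inl hcS
    have e2 : relImp (h S) (h (S ∩ T)) x y := by
      rw [← R.imp]
      exact mono _ _ e1 x y hT
    exact e2 x y le_rfl le_rfl hS
  · intro S x y hS
    have e1 : impS Q Sᶜ ∅ = S := by
      simp [impS]
    have e2 : ¬ relImp (h Sᶜ) (h ∅) x y := by
      rw [← R.imp, e1]
      exact hS
    by_contra hcon
    apply e2
    intro x' y' hx hy hh
    exact absurd ⟨x', y', hx, hy, hh⟩ hcon
  · intro S hS
    by_contra hcon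
    push Not at hcon
    have e3 : h S = h ∅ := by
      funext a b
      exact propext ⟨fun hh => absurd hh (hcon a b), fun hh => absurd hh (bot a b)⟩
    have e4 : S = ∅ := R.inj e3
    rw [e4] at hS
    exact Set.not_nonempty_empty hS

end Pool.Agent.Run7.h547.WR
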