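import Pool.Agent.Run7.h547.WR.QW

/-! Piece `QD` of the project WR (MP_5885b3_lc). -/

set_option autoImplicit false

universe u

namespace Pool.Agent.Run7.h547.WR

open Pool.Agent.Run7.h638.WR

theorem rU {Q : List Win} {X : Type u} [PartialOrder X] {h : Set (At Q) → X → X → Prop}
    (F : Facts Q h) {σ : X → ℕ} (hσ : Sorts Q h σ) {S : Set (At Q)} {x y : X} (h1 : h S x y) :
    h (S ∩ bk Q (σ x) (σ y)) x y :=
  F.inter _ _ _ _ h1 (hσ.2 x y)

theorem rU2 {Q : List Win} {X : Type u} [PartialOrder X] {h : Set (At Q) → X → X → Prop}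
    (F : Facts Q h) {S : Set (At Q)} {x y : X} (h1 : h S x y) : ∃ c, c ∈ S := by
  by_contra hcon
  push Not at hcon
  refine F.bot x y (F.mono _ _ ?_ _ _ h1)
  intro c hc
  exact absurd hc (hcon c)

theorem rU3 {Q : List Win} {X : Type u} [PartialOrder X] {h : Set (At Q) → X → X → Prop}
    (F : Facts Q h) {σ : X → ℕ} (hσ : Sorts Q h σ) {S : Set (At Q)} {x y : X} {i j : ℕ}
    (hS : ∀ c ∈ S, c.1.1 = (i, j)) (h1 : h S x y) : σ x = i ∧ σ y = j := by
  obtain ⟨c, hc1, hc2⟩ := rU2 F (rU F hσ h1)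
  have e1 := hS c hc1
  have e2 : c.1.1 = (σ x, σ y) := hc2
  rw [e1] at e2
  exact ⟨(Prod.ext_iff.1 e2).1.symm, (Prod.ext_iff.1 e2).2.symm⟩

theorem t_QD : QD.{u} := by
  intro Q X _ h F σ hσ x y hx hy
  have hb : h (bk Q 1 4) x y := by
    have := hσ.2 x y
    rw [hx, hy] at this
    exact this
  have e14 : blk Q 1 4 = Q.map (prj 1 4) := by simp [blk, kind]
  have e24 : blk Q 2 4 = Q.map (prj 1 4) := by
    have : prj 2 4 = prj 1 4 := by
      funext w
      simp [prj]
    simp [blk, kind, this]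
  have e34 : blk Q 3 4 = Q.map (prj 1 4) := by
    have : prj 3 4 = prj 1 4 := by
      funext w
      simp [prj]
    simp [blk, kind, this]
  have claim : ∀ t : Tile, h (sg Q 1 4 (tl t)) x y ∨ h (bk Q 1 4 \ sg Q 1 4 (tl t)) x y := by
    intro t
    have hsub : bk Q 1 4 ⊆ cmpS Q (sg Q 1 2 (lb 0) ∪ sg Q 1 3 (lb 0))
        (sg Q 2 4 (tl t) ∪ (bk Q 3 4 \ sg Q 3 4 (tl t))) := by
      intro c hc
      have hc1 : c.1.1 = (1, 4) := hc
      have hc2 : c.1.2 ∈ Q.map (prj 1 4) := by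
        have := c.2.2.2
        rw [hc1] at this
        rw [← e14]
        exact this
      by_cases hw : c.1.2 = tl t
      · refine ⟨⟨((1, 2), lb 0), by norm_num, by norm_num, by simp [blk, kind]⟩, Or.inl rfl,
          ⟨((2, 4), c.1.2), by norm_num, by norm_num, by rw [e24]; exact hc2⟩, Or.inl ?_, rfl,
          hc1, ?_⟩
        · show ((2, 4), c.1.2) = ((2, 4), tl t)
          rw [hw]
        · simp [rule, kind]
      · refine ⟨⟨((1, 3), lb 0), by norm_num, by norm_num, by simp [blk, kind]⟩, Or.inr rfl,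
          ⟨((3, 4), c.1.2), by norm_num, by norm_num, by rw [e34]; exact hc2⟩, Or.inr ⟨rfl, ?_⟩,
          rfl, hc1, ?_⟩
        · intro hh
          have hh2 : ((3, 4), c.1.2) = ((3, 4), tl t) := hh
          exact hw (Prod.ext_iff.1 hh2).2
        · simp [rule, kind]
    obtain ⟨z, hz1, hz2⟩ := (F.comp _ _ x y).1 (F.mono _ _ hsub _ _ hb)
    obtain ⟨c, hc1, hc2⟩ := rU2 F (rU F hσ hz1)
    have hc3 : c.1.1 = (σ x, σ z) := hc2
    rcases hc1 with hc1 | hc1
    · have hc4 : c.1 = ((1, 2), lb 0) := hc1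
      rw [hc4] at hc3
      have hz : σ z = 2 := (Prod.ext_iff.1 hc3).2.symm
      have k1 : h (sg Q 1 2 (lb 0)) x z := by
        refine F.mono _ _ ?_ _ _ (rU F hσ hz1)
        rintro d ⟨hd1 | hd1, hd2⟩
        · exact hd1
        · have hd3 : d.1 = ((1, 3), lb 0) := hd1
          have hd4 : d.1.1 = (σ x, σ z) := hd2
          rw [hd3, hz] at hd4
          exact absurd (Prod.ext_iff.1 hd4).2 (by norm_num)
      have k2 : h (sg Q 2 4 (tl t)) z y := by
        refine F.mono _ _ ?_ _ _ (rU F hσ hz2)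
        rintro d ⟨hd1 | hd1, hd2⟩
        · exact hd1
        · have hd3 : d.1.1 = (3, 4) := hd1.1
          have hd4 : d.1.1 = (σ z, σ y) := hd2
          rw [hd3, hz] at hd4
          exact absurd (Prod.ext_iff.1 hd4).1 (by norm_num)
      left
      refine cm F k1 k2 ?_
      rintro a ha b hb c ⟨_, h2, h3⟩
      have ha' : a.1 = ((1, 2), lb 0) := ha
      have hb' : b.1 = ((2, 4), tl t) := hb
      rw [ha', hb'] at h2 h3
      have h4 : c.1.2 = tl t := by simpa [rule, kind] using h3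
      exact Prod.ext h2 h4
    · have hc4 : c.1 = ((1, 3), lb 0) := hc1
      rw [hc4] at hc3
      have hz : σ z = 3 := (Prod.ext_iff.1 hc3).2.symm
      have k1 : h (sg Q 1 3 (lb 0)) x z := by
        refine F.mono _ _ ?_ _ _ (rU F hσ hz1)
        rintro d ⟨hd1 | hd1, hd2⟩
        · have hd3 : d.1 = ((1, 2), lb 0) := hd1
          have hd4 : d.1.1 = (σ x, σ z) := hd2
          rw [hd3, hz] at hd4
          exact absurd (Prod.ext_iff.1 hd4).2 (by norm_num)
        · exact hd1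
      have k2 : h (bk Q 3 4 \ sg Q 3 4 (tl t)) z y := by
        refine F.mono _ _ ?_ _ _ (rU F hσ hz2)
        rintro d ⟨hd1 | hd1, hd2⟩
        · have hd3 : d.1 = ((2, 4), tl t) := hd1
          have hd4 : d.1.1 = (σ z, σ y) := hd2
          rw [hd3, hz] at hd4
          exact absurd (Prod.ext_iff.1 hd4).1 (by norm_num)
        · exact hd1
      right
      refine cm F k1 k2 ?_
      rintro a ha b ⟨hb1, hb2⟩ c ⟨_, h2, h3⟩
      have ha' : a.1 = ((1, 3), lb 0) := ha
      have hb' : b.1.1 = (3, 4) := hb1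
      rw [ha', hb'] at h2 h3
      have h4 : c.1.2 = b.1.2 := by simpa [rule, kind] using h3
      refine ⟨h2, ?_⟩
      intro hh
      have hh2 : c.1 = ((1, 4), tl t) := hh
      rw [hh2] at h4
      exact hb2 (Prod.ext hb' h4.symm)
  by_contra hcon
  push Not at hcon
  have ind : ∀ l : List Tile, h {c | c.1.1 = (1, 4) ∧ ∀ t ∈ l, c.1.2 ≠ tl t} x y := by
    intro l
    induction l with
    | nil =>
      refine F.mono _ _ ?_ _ _ hb
      intro c hc
      exact ⟨hc, by simp⟩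
    | cons t l ih =>
      refine F.mono _ _ ?_ _ _ (F.inter _ _ _ _ ih ((claim t).resolve_left (hcon t)))
      rintro c ⟨⟨hc1, hc2⟩, hc3, hc4⟩
      refine ⟨hc1, ?_⟩
      intro t' ht'
      rcases List.mem_cons.1 ht' with rfl | ht'
      · intro hh
        exact hc4 (Prod.ext hc1 hh)
      · exact hc2 t' ht'
  refine F.bot x y (F.mono _ _ ?_ _ _ (ind (Q.map (fun w => w.1.1))))
  rintro c ⟨hc1, hc2⟩
  exfalso
  have hc3 : c.1.2 ∈ Q.map (prj 1 4) := by
    have := c.2.2.2
    rw [hc1] at this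
    rw [← e14]
    exact this
  obtain ⟨w, hw, hw2⟩ := List.mem_map.1 hc3
  refine hc2 w.1.1 (List.mem_map.2 ⟨w, hw, rfl⟩) ?_
  rw [← hw2]
  simp [prj, tl]

end Pool.Agent.Run7.h547.WR
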