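import Pool.Agent.Run7.h547.WR.QD

/-! Piece `QP` of the project WR (MP_5885b3_lc). -/

set_option autoImplicit false

universe u

namespace Pool.Agent.Run7.h547.WR

open Pool.Agent.Run7.h638.WR

theorem t_QP : QP.{u} := by
  intro Q X _ h F σ hσ x hx
  have h00 : (bk Q 0 0).Nonempty :=
    ⟨⟨((0, 0), lb 0), by norm_num, by norm_num, by simp [blk, kind]⟩, rfl⟩
  obtain ⟨m, m', hm⟩ := F.ne _ h00
  have hm0 : σ m = 0 := (rU3 F hσ (i := 0) (j := 0) (fun c hc => hc) hm).1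
  have st1 : ∀ x, σ x = 1 → ∃ x', σ x' = 0 ∧ h (sg Q 0 1 (lb 0)) x' x := by
    intro x hx
    have hb : h (bk Q 0 1) m x := by
      have := hσ.2 m x
      rw [hm0, hx] at this
      exact this
    have hsub : bk Q 0 1 ⊆ cmpS Q (bk Q 0 0) (sg Q 0 1 (lb 0)) := by
      intro c hc
      refine ⟨⟨((0, 0), lb 0), by norm_num, by norm_num, by simp [blk, kind]⟩, rfl,
        ⟨((0, 1), lb 0), by norm_num, by norm_num, by simp [blk, kind]⟩, rfl, rfl, hc, ?_⟩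
      simp [rule, kind]
    obtain ⟨z, hz1, hz2⟩ := (F.comp _ _ m x).1 (F.mono _ _ hsub _ _ hb)
    refine ⟨z, (rU3 F hσ (i := 0) (j := 0) (fun c hc => hc) hz1).2, hz2⟩
  have st2 : ∀ x' x, σ x' = 0 → σ x = 1 → ∃ x'', σ x'' = 1 ∧ h (sg Q 0 1 (lb 1)) x' x'' := by
    intro x' x hx' hx
    have hb : h (bk Q 0 1) x' x := by
      have := hσ.2 x' x
      rw [hx', hx] at this
      exact this
    have hsub : bk Q 0 1 ⊆ cmpS Q (sg Q 0 1 (lb 1)) (bk Q 1 1) := by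
      intro c hc
      refine ⟨⟨((0, 1), lb 1), by norm_num, by norm_num, by simp [blk, kind]⟩, rfl,
        ⟨((1, 1), lb 0), by norm_num, by norm_num, by simp [blk, kind]⟩, rfl, rfl, hc, ?_⟩
      simp [rule, kind]
    obtain ⟨z, hz1, hz2⟩ := (F.comp _ _ x' x).1 (F.mono _ _ hsub _ _ hb)
    exact ⟨z, (rU3 F hσ (i := 1) (j := 1) (fun c hc => hc) hz2).1, hz1⟩
  have st : ∀ x : {x // σ x = 1}, ∃ (y : {x // σ x = 1}) (x' : X),
      h (sg Q 0 1 (lb 0)) x' x.1 ∧ h (sg Q 0 1 (lb 1)) x' y.1 := by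
    intro x
    obtain ⟨x', h1, h2⟩ := st1 x.1 x.2
    obtain ⟨x'', h3, h4⟩ := st2 x' x.1 h1 x.2
    exact ⟨⟨x'', h3⟩, x', h2, h4⟩
  choose f g hf hg using st
  let p : ℕ → {x // σ x = 1} := fun n => Nat.rec ⟨x, hx⟩ (fun _ y => f y) n
  have hp : ∀ n, p (n + 1) = f (p n) := fun n => rfl
  refine ⟨fun n => (p n).1, fun n => g (p n), rfl, fun i => ⟨(p i).2, hf (p i), ?_⟩⟩
  show h (sg Q 0 1 (lb 1)) (g (p i)) (p (i + 1)).1
  rw [hp]
  exact hg (p i)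

end Pool.Agent.Run7.h547.WR
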