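import Pool.Agent.Run7.h547.WR.QD

/-! Piece `QQ` of the project WR (MP_5885b3_lc). -/

set_option autoImplicit false

universe u

namespace Pool.Agent.Run7.h547.WR

open Pool.Agent.Run7.h638.WR

theorem t_QQ : QQ.{u} := by
  intro Q X _ h F σ hσ x hx
  have h00 : (bk Q 5 5).Nonempty :=
    ⟨⟨((5, 5), lb 0), by norm_num, by norm_num, by simp [blk, kind]⟩, rfl⟩
  obtain ⟨m', m, hm⟩ := F.ne _ h00
  have hm0 : σ m = 5 := (rU3 F hσ (i := 5) (j := 5) (fun c hc => hc) hm).2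
  have st1 : ∀ x, σ x = 4 → ∃ x', σ x' = 5 ∧ h (sg Q 4 5 (lb 0)) x x' := by
    intro x hx
    have hb : h (bk Q 4 5) x m := by
      have := hσ.2 x m
      rw [hm0, hx] at this
      exact this
    have hsub : bk Q 4 5 ⊆ cmpS Q (sg Q 4 5 (lb 0)) (bk Q 5 5) := by
      intro c hc
      refine ⟨⟨((4, 5), lb 0), by norm_num, by norm_num, by simp [blk, kind]⟩, rfl,
        ⟨((5, 5), lb 0), by norm_num, by norm_num, by simp [blk, kind]⟩, rfl, rfl, hc, ?_⟩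
      simp [rule, kind]
    obtain ⟨z, hz1, hz2⟩ := (F.comp _ _ x m).1 (F.mono _ _ hsub _ _ hb)
    refine ⟨z, (rU3 F hσ (i := 5) (j := 5) (fun c hc => hc) hz2).1, hz1⟩
  have st2 : ∀ x' x, σ x' = 5 → σ x = 4 → ∃ x'', σ x'' = 4 ∧ h (sg Q 4 5 (lb 1)) x'' x' := by
    intro x' x hx' hx
    have hb : h (bk Q 4 5) x x' := by
      have := hσ.2 x x'
      rw [hx', hx] at this
      exact this
    have hsub : bk Q 4 5 ⊆ cmpS Q (bk Q 4 4) (sg Q 4 5 (lb 1)) := by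
      intro c hc
      refine ⟨⟨((4, 4), lb 0), by norm_num, by norm_num, by simp [blk, kind]⟩, rfl,
        ⟨((4, 5), lb 1), by norm_num, by norm_num, by simp [blk, kind]⟩, rfl, rfl, hc, ?_⟩
      simp [rule, kind]
    obtain ⟨z, hz1, hz2⟩ := (F.comp _ _ x x').1 (F.mono _ _ hsub _ _ hb)
    exact ⟨z, (rU3 F hσ (i := 4) (j := 4) (fun c hc => hc) hz1).2, hz2⟩
  have st : ∀ x : {x // σ x = 4}, ∃ (y : {x // σ x = 4}) (x' : X),
      h (sg Q 4 5 (lb 0)) x.1 x' ∧ h (sg Q 4 5 (lb 1)) y.1 x' := by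
    intro x
    obtain ⟨x', h1, h2⟩ := st1 x.1 x.2
    obtain ⟨x'', h3, h4⟩ := st2 x' x.1 h1 x.2
    exact ⟨⟨x'', h3⟩, x', h2, h4⟩
  choose f g hf hg using st
  let p : ℕ → {x // σ x = 4} := fun n => Nat.rec ⟨x, hx⟩ (fun _ y => f y) n
  have hp : ∀ n, p (n + 1) = f (p n) := fun n => rfl
  refine ⟨fun n => (p n).1, fun n => g (p n), rfl, fun i => ⟨(p i).2, hf (p i), ?_⟩⟩
  show h (sg Q 4 5 (lb 1)) (p (i + 1)).1 (g (p i))
  rw [hp]
  exact hg (p i)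

end Pool.Agent.Run7.h547.WR
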