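import Pool.Agent.Run7.h638.WR.Iface

/-! Piece `QW` of the project WR (MP_5885b3_lc). -/

set_option autoImplicit false

universe u

namespace Pool.Agent.Run7.h547.WR

open Pool.Agent.Run7.h638.WR

theorem cm {Q : List Win} {X : Type u} [PartialOrder X] {h : Set (At Q) → X → X → Prop}
    (F : Facts Q h) {S T R : Set (At Q)} {x y z : X} (h1 : h S x y) (h2 : h T y z)
    (hR : ∀ a ∈ S, ∀ b ∈ T, ∀ c : At Q, mul a.1 b.1 c.1 → c ∈ R) : h R x z := by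
  refine F.mono _ _ ?_ _ _ ((F.comp S T x z).2 ⟨y, h1, h2⟩)
  rintro c ⟨a, ha, b, hb, hm⟩
  exact hR a ha b hb c hm

theorem t_QW : QW.{u} := by
  intro Q X _ h F x0 x1 x2 y0 y1 y2 t11 t12 t21 t22 a1 a2 b1 b2 c11 c12 c21 c22
  have s1 : ∀ (t : Tile) (x y : X), h (sg Q 1 4 (tl t)) x y → ∀ x', h (sg Q 0 1 (lb 0)) x' x →
      h {c | c.1.1 = (0, 4) ∧ c.1.2.1 = (t, z0)} x' y := by
    intro t x y hxy x' hx
    refine cm F hx hxy ?_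
    rintro a ha b hb c ⟨_, h2, h3⟩
    have ha' : a.1 = ((0, 1), lb 0) := ha
    have hb' : b.1 = ((1, 4), tl t) := hb
    rw [ha', hb'] at h2 h3
    refine ⟨h2, ?_⟩
    simpa [rule, kind, tl] using h3
  have s2 : ∀ (t : Tile) (x y : X), h (sg Q 1 4 (tl t)) x y → ∀ x', h (sg Q 0 1 (lb 1)) x' x →
      h {c | c.1.1 = (0, 4) ∧ c.1.2.2 = (t, z0)} x' y := by
    intro t x y hxy x' hx
    refine cm F hx hxy ?_
    rintro a ha b hb c ⟨_, h2, h3⟩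
    have ha' : a.1 = ((0, 1), lb 1) := ha
    have hb' : b.1 = ((1, 4), tl t) := hb
    rw [ha', hb'] at h2 h3
    refine ⟨h2, ?_⟩
    simpa [rule, kind, tl, lb] using h3
  have r1 : ∀ (t : Tile) (x y : X), h {c | c.1.1 = (0, 4) ∧ c.1.2.1 = (t, z0)} x y →
      ∀ y', h (sg Q 4 5 (lb 0)) y y' → h {c | c.1.1 = (0, 5) ∧ c.1.2.1.1 = t} x y' := by
    intro t x y hxy y' hy
    refine cm F hxy hy ?_
    rintro a ⟨ha1, ha2⟩ b hb c ⟨_, h2, h3⟩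
    have hb' : b.1 = ((4, 5), lb 0) := hb
    rw [hb', ha1] at h2 h3
    refine ⟨h2, ?_⟩
    have h4 : c.1.2.1.1 = a.1.2.1.1 ∧ c.1.2.2.1 = a.1.2.2.1 := by
      simpa [rule, kind, lb] using h3
    rw [h4.1, ha2]
  have r2 : ∀ (t : Tile) (x y : X), h {c | c.1.1 = (0, 4) ∧ c.1.2.2 = (t, z0)} x y →
      ∀ y', h (sg Q 4 5 (lb 0)) y y' → h {c | c.1.1 = (0, 5) ∧ c.1.2.2.1 = t} x y' := by
    intro t x y hxy y' hy
    refine cm F hxy hy ?_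
    rintro a ⟨ha1, ha2⟩ b hb c ⟨_, h2, h3⟩
    have hb' : b.1 = ((4, 5), lb 0) := hb
    rw [hb', ha1] at h2 h3
    refine ⟨h2, ?_⟩
    have h4 : c.1.2.1.1 = a.1.2.1.1 ∧ c.1.2.2.1 = a.1.2.2.1 := by
      simpa [rule, kind, lb] using h3
    rw [h4.2, ha2]
  have r3 : ∀ (t : Tile) (x y : X), h {c | c.1.1 = (0, 4) ∧ c.1.2.1 = (t, z0)} x y →
      ∀ y', h (sg Q 4 5 (lb 1)) y y' → h {c | c.1.1 = (0, 5) ∧ c.1.2.1.2 = t} x y' := by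
    intro t x y hxy y' hy
    refine cm F hxy hy ?_
    rintro a ⟨ha1, ha2⟩ b hb c ⟨_, h2, h3⟩
    have hb' : b.1 = ((4, 5), lb 1) := hb
    rw [hb', ha1] at h2 h3
    refine ⟨h2, ?_⟩
    have h4 : c.1.2.1.2 = a.1.2.1.1 ∧ c.1.2.2.2 = a.1.2.2.1 := by
      simpa [rule, kind, lb] using h3
    rw [h4.1, ha2]
  have r4 : ∀ (t : Tile) (x y : X), h {c | c.1.1 = (0, 4) ∧ c.1.2.2 = (t, z0)} x y →
      ∀ y', h (sg Q 4 5 (lb 1)) y y' → h {c | c.1.1 = (0, 5) ∧ c.1.2.2.2 = t} x y' := by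
    intro t x y hxy y' hy
    refine cm F hxy hy ?_
    rintro a ⟨ha1, ha2⟩ b hb c ⟨_, h2, h3⟩
    have hb' : b.1 = ((4, 5), lb 1) := hb
    rw [hb', ha1] at h2 h3
    refine ⟨h2, ?_⟩
    have h4 : c.1.2.1.2 = a.1.2.1.1 ∧ c.1.2.2.2 = a.1.2.2.1 := by
      simpa [rule, kind, lb] using h3
    rw [h4.2, ha2]
  have g1 := r1 t11 x0 y1 (s1 t11 x1 y1 c11 x0 a1) y0 b1
  have g2 := r2 t21 x0 y1 (s2 t21 x2 y1 c21 x0 a2) y0 b1
  have g3 := r3 t12 x0 y2 (s1 t12 x1 y2 c12 x0 a1) y0 b2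
  have g4 := r4 t22 x0 y2 (s2 t22 x2 y2 c22 x0 a2) y0 b2
  have g := F.inter _ _ _ _ (F.inter _ _ _ _ (F.inter _ _ _ _ g1 g2) g3) g4
  by_contra hcon
  refine F.bot x0 y0 (F.mono _ _ ?_ _ _ g)
  rintro c ⟨⟨⟨⟨d0, d1⟩, ⟨_, d2⟩⟩, ⟨_, d3⟩⟩, ⟨_, d4⟩⟩
  exfalso
  apply hcon
  have hm := c.2.2.2
  rw [d0] at hm
  have e : blk Q 0 5 = Q.map (prj 0 5) := by simp [blk, kind]
  rw [e, List.mem_map] at hm
  obtain ⟨w, hw, hw2⟩ := hm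
  have e2 : prj 0 5 w = w := by simp [prj]
  rw [e2] at hw2
  have e3 : w = ((t11, t12), (t21, t22)) := by
    rw [hw2]
    exact Prod.ext (Prod.ext d1 d3) (Prod.ext d2 d4)
  rw [← e3]
  exact hw

end Pool.Agent.Run7.h547.WR
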